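import Pool.Agent.Q147.SNum
import Pool.Agent.Q147.SNumUp

/-!
# MP_e04a0d_gt: the structural number of an infinite-dimensional countable-dimensional metrizable
space is `ℵ₀`
-/

namespace Pool.Agent.Results.MP_e04a0d_gt.FiniteStructuralNumber

open Set Topology Cardinal

universe u

/-- The covering (Čech–Lebesgue) dimension of the space `(X, τ)` is at most `n`: every finite open
cover `U 0, …, U (k-1)` has an open shrinking `W 0, …, W (k-1)` which covers `X` and such that every
point lies in at most `n + 1` of the sets `W i`. -/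
def DimLE {X : Type u} (τ : TopologicalSpace X) (n : ℕ) : Prop :=
  ∀ (k : ℕ) (U : Fin k → Set X), (∀ i, IsOpen[τ] (U i)) → (⋃ i, U i) = Set.univ →
    ∃ W : Fin k → Set X, (∀ i, IsOpen[τ] (W i)) ∧ (∀ i, W i ⊆ U i) ∧ (⋃ i, W i) = Set.univ ∧
      ∀ x, {i | x ∈ W i}.encard ≤ n + 1

/-- `(X, τ)` is countable-dimensional: it is the union of countably many subspaces of dimension at
most zero. -/
def CountableDimensional {X : Type u} (τ : TopologicalSpace X) : Prop :=
  ∃ Z : ℕ → Set X, (⋃ k, Z k) = Set.univ ∧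
    ∀ k, DimLE (TopologicalSpace.induced ((↑) : Z k → X) τ) 0

/-- `μ` is a metrizable extension of `τ` of covering dimension zero. -/
def IsZeroDimExtension {X : Type u} (τ μ : TopologicalSpace X) : Prop :=
  (∀ U : Set X, IsOpen[τ] U → IsOpen[μ] U) ∧ @TopologicalSpace.MetrizableSpace X μ ∧ DimLE μ 0

/-- `τ` is the intersection of a family, indexed by a set of cardinality `κ`, of metrizable
extensions of dimension zero. The structural number of `τ` is the least such `κ`. -/
def HasFamily {X : Type u} (τ : TopologicalSpace X) (κ : Cardinal.{u}) : Prop :=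
  ∃ (ι : Type u) (σ : ι → TopologicalSpace X), #ι = κ ∧ (∀ i, IsZeroDimExtension τ (σ i)) ∧
    ∀ U : Set X, IsOpen[τ] U ↔ ∀ i, IsOpen[σ i] U

theorem zero_iff {X : Type u} (τ : TopologicalSpace X) :
    Pool.Agent.Q147.SNumUp.Zero τ ↔ DimLE τ 0 := by
  unfold Pool.Agent.Q147.SNumUp.Zero DimLE
  simp only [Nat.cast_zero, zero_add]

/-- **Main theorem.** The structural number of a metrizable countable-dimensional space of infinite
covering dimension is exactly `ℵ₀`. Moreover, if the topology of a metrizable space is the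
intersection of `n` metrizable extensions of dimension zero, then its covering dimension is at most
`2 ^ n * n!`; hence the structural number of every metrizable space of infinite covering dimension
is at least `ℵ₀`. -/
theorem result {X : Type u} (τ : TopologicalSpace X)
    (hτ : @TopologicalSpace.MetrizableSpace X τ) :
    (CountableDimensional τ → (∀ n : ℕ, ¬ DimLE τ n) →
      IsLeast {κ : Cardinal.{u} | HasFamily τ κ} ℵ₀) ∧
    (∀ n : ℕ, HasFamily τ n → DimLE τ (2 ^ n * n.factorial)) ∧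
    ((∀ n : ℕ, ¬ DimLE τ n) → ∀ κ : Cardinal.{u}, HasFamily τ κ → ℵ₀ ≤ κ) := by
  have h1 : ∀ n : ℕ, HasFamily τ n → DimLE τ (2 ^ n * n.factorial) := by
    rintro n ⟨ι, σ, hι, hσ, hU⟩ k
    have hfin : Finite ι := by
      rw [← Cardinal.lt_aleph0_iff_finite, hι]
      exact Cardinal.natCast_lt_aleph0
    have := Fintype.ofFinite ι
    have hcard : Fintype.card ι = n := by
      rw [Cardinal.mk_fintype] at hι
      exact_mod_cast hι
    have h2 := @Pool.Agent.Q147.SNum.main X τ hτ ι _ σ (fun i U hU => (hσ i).1 U hU)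
      (fun U h => (hU U).2 h) (Fin k) (fun i => (hσ i).2.2 k)
    rw [hcard] at h2
    exact h2
  have h2 : (∀ n : ℕ, ¬ DimLE τ n) → ∀ κ : Cardinal.{u}, HasFamily τ κ → ℵ₀ ≤ κ := by
    intro hdim κ hκ
    by_contra hcon
    rw [not_le, Cardinal.lt_aleph0] at hcon
    obtain ⟨n, rfl⟩ := hcon
    exact hdim _ (h1 n hκ)
  refine ⟨?_, h1, h2⟩
  rintro ⟨Z, hZ, hZ'⟩ hdim
  refine ⟨?_, fun κ hκ => h2 hdim κ hκ⟩
  obtain ⟨μ, hμ1, hμ2⟩ := Pool.Agent.Q147.SNumUp.main τ hτ Z (fun k => (zero_iff _).2 (hZ' k)) hZ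
  refine ⟨ULift.{u} ℕ, fun i => μ i.down, ?_, fun i => ?_, fun U => ?_⟩
  · exact Cardinal.mk_eq_aleph0 _
  · exact ⟨(hμ1 i.down).1, (hμ1 i.down).2.1, (zero_iff _).1 (hμ1 i.down).2.2⟩
  · rw [hμ2 U]
    exact ⟨fun h i => h i.down, fun h k => h ⟨k⟩⟩

end Pool.Agent.Results.MP_e04a0d_gt.FiniteStructuralNumber
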